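import Pool.Agent.helper26.IM.SpecA

set_option autoImplicit false

open Finset

namespace Pool.Agent.helper26.IM

open Pool.Agent.RRank Pool.Agent.helper35.MR

/-- the good sequences of blocks -/
def CSB_Gd {n m r : ℕ} {X Y Z K : Type} [Field K] (T : X → Y → Z → K) (PX : Fin r → X → K)
    (PY : Fin r → Y → K) (PZ : Fin r → Z → K) (i : Fin n) (b : Fin n → Blk m X Y Z K) : Prop :=
  Blk.Circ PX PY PZ (b i) ∧ Blk.val T (b i) (b i) (b i) ≠ 0 ∧
    ∀ j k, j < i → k < i → Blk.Circ PX PY PZ (b j) → Blk.Circ PX PY PZ (b k) →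
      Blk.val T (b i) (b j) (b k) = 0 ∧ Blk.val T (b j) (b i) (b k) = 0 ∧
        Blk.val T (b j) (b k) (b i) = 0

theorem CSB_wt {n m N q : ℕ} {X Y Z K : Type} [Field K] (T : X → Y → Z → K)
    (α : X → Fin N → Fin q → K) (β : Y → Fin N → Fin q → K) (γ : Z → Fin N → Fin q → K)
    (b : Fin n → Blk m X Y Z K) (i j k : Fin n) :
    Wt (fun x y z => T ((b x.1).x x.2) ((b y.1).y y.2) ((b z.1).z z.2))
      (fun i => Blk.dat T α β γ (b i)) i j k = Blk.val T (b i) (b j) (b k) := rfl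

theorem CSB_good {n m N q l r : ℕ} {X Y Z K : Type} [Field K] (T : X → Y → Z → K)
    (α : X → Fin N → Fin q → K) (β : Y → Fin N → Fin q → K) (γ : Z → Fin N → Fin q → K)
    (hT : ¬ HasFull T l) (hE : Eqn N q T α β γ) (PX : Fin r → X → K)
    (PY : Fin r → Y → K) (PZ : Fin r → Z → K) (b : Fin n → Blk m X Y Z K)
    (hb : ∀ i, CSB_Gd T PX PY PZ i b) :
    Good l (fun x y z => T ((b x.1).x x.2) ((b y.1).y y.2) ((b z.1).z z.2))
      (fun i => Blk.dat T α β γ (b i)) where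
  eqn := fun x y z => hE ((b x.1).x x.2) ((b y.1).y y.2) ((b z.1).z z.2)
  off := by
    intro i j k h
    rw [CSB_wt]
    rcases h with ⟨h1, h2⟩ | ⟨h1, h2⟩ | ⟨h1, h2⟩
    · exact ((hb i).2.2 j k h1 h2 (hb j).1 (hb k).1).1
    · exact ((hb j).2.2 i k h1 h2 (hb i).1 (hb k).1).2.1
    · exact ((hb k).2.2 i j h1 h2 (hb i).1 (hb j).1).2.2
  diag := by
    intro i
    rw [CSB_wt]
    exact mul_inv_cancel₀ (hb i).2.1
  nf := fun h => hT (HasFull.of_comp (fun x : Fin n × Fin m => (b x.1).x x.2)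
    (fun y : Fin n × Fin m => (b y.1).y y.2) (fun z : Fin n × Fin m => (b z.1).z z.2) h)

theorem CSB (hGBL : GBL_stmt) (hSP0 : SP0_stmt) (hFIN : FIN_stmt) (hITR : ITR_stmt)
    (hSTP : STP_stmt) : CSB_stmt := by
  intro K _ _ X Y Z T l N q α β γ 𝓊 𝓋 𝓌 hT hE hL h1 h2 h3
  obtain ⟨r, PX, PY, PZ, 𝒰, hU1, hU2⟩ := hGBL K X Y Z T 𝓊 𝓋 𝓌 hL h1 h2 h3
  obtain ⟨n, hn⟩ := hFIN l N q (r + 1)
  obtain ⟨φ⟩ := hSP0 K (Blk (r + 1) X Y Z K) 𝒰 (DI (r + 1) N q) (Blk.dat T α β γ)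
  have key : ∃ t : Fin n × Fin (r + 1) → Fin n × Fin (r + 1) → Fin n × Fin (r + 1) → K,
      Good l t (fun _ : Fin n => fun i => φ ⟨_, Algebra.subset_adjoin ⟨i, rfl⟩⟩) := by
    refine hITR n (Blk (r + 1) X Y Z K) (DI (r + 1) N q → K) 𝒰 (Blk.dat T α β γ)
      (fun i => φ ⟨_, Algebra.subset_adjoin ⟨i, rfl⟩⟩) (fun d => ∃ t, Good l t d)
      (CSB_Gd T PX PY PZ) ?_ ?_ ?_ ?_
    · intro i b b' hbb h
      obtain ⟨g1, g2, g3⟩ := h
      have hi := hbb i le_rfl
      refine ⟨hi ▸ g1, hi ▸ g2, ?_⟩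
      intro j k hj hk hcj hck
      have e1 := hbb j hj.le
      have e2 := hbb k hk.le
      rw [← e1] at hcj
      rw [← e2] at hck
      rw [← hi, ← e1, ← e2]
      exact g3 j k hj hk hcj hck
    · intro i b
      have hall : ∀ᶠ c in (𝒰 : Filter (Blk (r + 1) X Y Z K)), ∀ j k : Fin n,
          Blk.Circ PX PY PZ (b j) → Blk.Circ PX PY PZ (b k) →
          Blk.val T c (b j) (b k) = 0 ∧ Blk.val T (b j) c (b k) = 0 ∧ Blk.val T (b j) (b k) c = 0 := by
        rw [Filter.eventually_all]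
        intro j
        rw [Filter.eventually_all]
        intro k
        by_cases hj : Blk.Circ PX PY PZ (b j)
        · by_cases hk : Blk.Circ PX PY PZ (b k)
          · filter_upwards [hU2 (b j) (b k) hj hk] with c hc _ _ using hc
          · exact Filter.Eventually.of_forall fun c _ h => absurd h hk
        · exact Filter.Eventually.of_forall fun c h _ => absurd h hj
      filter_upwards [hU1, hall] with c hc1 hc2
      unfold CSB_Gd
      rw [Function.update_self]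
      refine ⟨hc1.1, hc1.2, ?_⟩
      intro j k hj hk hcj hck
      rw [Function.update_of_ne hj.ne] at hcj ⊢
      rw [Function.update_of_ne hk.ne] at hck ⊢
      exact hc2 j k hcj hck
    · intro b hb
      exact ⟨_, CSB_good T α β γ hT hE PX PY PZ b hb⟩
    · intro d k hd
      exact hSTP K n (r + 1) N q l (Blk (r + 1) X Y Z K) 𝒰 (Blk.dat T α β γ) φ _ (fun i => rfl)
        d k hd
  obtain ⟨t, ht⟩ := key
  exact hn K _ t ht

end Pool.Agent.helper26.IM
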