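import Pool.Agent.helper26.IM.SpecA

set_option autoImplicit false

open Finset

namespace Pool.Agent.helper26.IM

open Pool.Agent.RRank Pool.Agent.helper35.MR

theorem LS3 : LS3_stmt := by
  intro Ω 𝓅 K _ X Y Z _ _ _ T r h
  obtain ⟨p, q, s, a, b, c, d, e, f, h1, h2⟩ := h
  let lift : UF 𝓅 K → ∀ ω, K ω := Function.surjInv (UF.mk_surjective 𝓅)
  have hlift : ∀ u, UF.mk 𝓅 (lift u) = u := Function.surjInv_eq (UF.mk_surjective 𝓅)
  have key : ∀ x y z, ∀ᶠ ω in (𝓅 : Filter Ω), T ω x y z =
      ∑ i, lift (a i x) ω * lift (b i y z) ω + ∑ j, lift (c j y) ω * lift (d j x z) ω +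
        ∑ k, lift (e k z) ω * lift (f k x y) ω := by
    intro x y z
    have h3 : UF.mk 𝓅 (fun ω => T ω x y z) = UF.mk 𝓅
        (∑ i, lift (a i x) * lift (b i y z) + ∑ j, lift (c j y) * lift (d j x z) +
        ∑ k, lift (e k z) * lift (f k x y)) := by
      have h4 := h2 x y z
      simp only [map_add, map_sum, map_mul, hlift]
      exact h4
    have h5 := UF.mk_eq_mk.1 h3
    filter_upwards [h5] with ω hω
    rw [hω]
    simp only [Pi.add_apply, Finset.sum_apply, Pi.mul_apply]
  have hall : ∀ᶠ ω in (𝓅 : Filter Ω), ∀ x y z, T ω x y z =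
      ∑ i, lift (a i x) ω * lift (b i y z) ω + ∑ j, lift (c j y) ω * lift (d j x z) ω +
        ∑ k, lift (e k z) ω * lift (f k x y) ω := by
    rw [Filter.eventually_all]
    intro x
    rw [Filter.eventually_all]
    intro y
    rw [Filter.eventually_all]
    intro z
    exact key x y z
  filter_upwards [hall] with ω hω
  exact ⟨p, q, s, fun i x => lift (a i x) ω, fun i y z => lift (b i y z) ω,
    fun j y => lift (c j y) ω, fun j x z => lift (d j x z) ω, fun k z => lift (e k z) ω,
    fun k x y => lift (f k x y) ω, h1, hω⟩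

end Pool.Agent.helper26.IM
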